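import Pool.Agent.helper66.SL.SpecC

set_option autoImplicit false

namespace Pool.Agent.helper66.SL

open Pool.Agent.helper52.FC

/-- double counting -/
theorem CIA_count (E : Type) [Fintype E] (L : Set (E → SignType)) (m : ℕ) :
    ∑ e, {p | Vx L m p ∧ p e = 0}.ncard = m * {p | Vx L m p}.ncard := by
  classical
  have hfin : {p : E → SignType | Vx L m p}.Finite := Set.toFinite _
  have h1 : ∀ e, {p | Vx L m p ∧ p e = 0}.ncard = ∑ p ∈ hfin.toFinset, if p e = 0 then 1 else 0 := by
    intro e
    rw [← Finset.card_filter, ← Set.ncard_coe_finset]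
    congr 1
    ext p
    simp
  have h2 : {p | Vx L m p}.ncard = hfin.toFinset.card := Set.ncard_eq_toFinset_card _ hfin
  rw [h2]
  simp only [h1]
  rw [Finset.sum_comm, mul_comm, ← smul_eq_mul, ← Finset.sum_const]
  refine Finset.sum_congr rfl fun p hp => ?_
  rw [Set.Finite.mem_toFinset] at hp
  have h3 : {g | p g = 0}.ncard = m := hp.2
  rw [← Finset.card_filter, ← h3, ← Set.ncard_coe_finset]
  congr 1
  ext g
  simp

/-- CIA -/
theorem CIA_proof : CIA := by
  intro E _ L _
  exact ⟨CIA_count E L 2, CIA_count E L 3⟩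

end Pool.Agent.helper66.SL
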