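import Pool.Agent.helper66.SL.SpecK

set_option autoImplicit false

namespace Pool.Agent.helper66.SL

open Pool.Agent.helper52.FC

/-- a neighbour of a tope in the tope graph is obtained by crossing a wall -/
theorem KTC_adj {E : Type} {L : Set (E → SignType)} (hL : IsOM L) (hs : IsSimple L) {T S : E → SignType}
    (hT : IsTope L T) (hS : IsTope L S) {e : E} (h : DiffAt e T S) : S = fl T e := by
  funext g
  by_cases hg : g = e
  · subst hg
    rw [fl_same]
    have h1 := sne (tope_supp hL hs hT g) (tope_supp hL hs hS g) h.1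
    rw [h1, neg_neg]
  · rw [fl_ne T hg]
    exact (h.2 g hg).symm

/-- improving neighbour -/
theorem KTC_imp {E : Type} [Fintype E] {L : Set (E → SignType)} {r : ℕ}
    {P : Set (EuclideanSpace ℝ (Fin r))} (φ : topeGraph L ≃g skeleton P) (hK : KS L r P)
    {T : E → SignType} (hT : IsTope L T) (g : EuclideanSpace ℝ (Fin r) →ₗ[ℝ] ℝ)
    (hg : ∀ e, Wall L T e → g (vp φ (fl T e)) ≤ g (vp φ T)) :
    ∀ S, IsTope L S → g (vp φ S) ≤ g (vp φ T) := by
  classical
  intro S hS
  by_contra hne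
  rw [not_le] at hne
  have : Fintype {T : E → SignType // IsTope L T} := Fintype.ofFinite _
  have hvp : ∀ (R : E → SignType) (hR : IsTope L R), vp φ R = (φ.toEquiv ⟨R, hR⟩).1 := by
    intro R hR
    unfold vp
    rw [dif_pos hR]
    rfl
  have hV : ∀ i, ∃ c, Vt (pv φ.toEquiv) i c := vt hK.pol φ.toEquiv
  set G : EuclideanSpace ℝ (Fin r) × ℝ →ₗ[ℝ] ℝ :=
    (g (vp φ T)) • LinearMap.snd ℝ (EuclideanSpace ℝ (Fin r)) ℝ - g.comp (LinearMap.fst ℝ _ ℝ) with hG
  have hGp : ∀ i : {T : E → SignType // IsTope L T}, G (pv φ.toEquiv i) = g (vp φ T) - g (vp φ i.1) := by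
    intro i
    rw [hvp i.1 i.2]
    simp [hG, pv]
  have him := improve hV (c := 0) (g := G) (fun k => by simp) (i := ⟨T, hT⟩) (by simp)
    (by rw [hGp]; simp) ⟨⟨S, hS⟩, by simp, by rw [hGp]; simpa using hne⟩
  obtain ⟨k, _, hk, hEd⟩ := him
  rw [hGp] at hk
  have hadj := adj_of_ed hK.pol φ.toEquiv hEd
  have hadj' : (topeGraph L).Adj ⟨T, hT⟩ k := φ.map_adj_iff.1 hadj
  obtain ⟨e, he⟩ := hadj'
  have hke := KTC_adj hK.good.om hK.good.simple hT k.2 he
  have hW : Wall L T e := by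
    unfold Wall
    rw [← hke]
    exact k.2
  have := hg e hW
  rw [← hke] at this
  linarith

/-- KTC -/
theorem KTC_proof : KTC := by
  classical
  intro E _ L r P φ hK T hT x hx
  have hvp : ∀ (R : E → SignType) (hR : IsTope L R), vp φ R = (φ.toEquiv ⟨R, hR⟩).1 := by
    intro R hR
    unfold vp
    rw [dif_pos hR]
    rfl
  have hhull := hull hK.pol φ.toEquiv
  -- all linear functionals
  have hfar : ∀ g : EuclideanSpace ℝ (Fin r) →ₗ[ℝ] ℝ,
      (∀ e ∈ Finset.univ.filter (fun e => Wall L T e),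
        (LinearMap.applyₗ (vp φ (fl T e) - vp φ T) : (EuclideanSpace ℝ (Fin r) →ₗ[ℝ] ℝ) →ₗ[ℝ] ℝ) g ≤ 0) →
      (LinearMap.applyₗ (x - vp φ T) : (EuclideanSpace ℝ (Fin r) →ₗ[ℝ] ℝ) →ₗ[ℝ] ℝ) g ≤ 0 := by
    intro g hg
    have h1 : ∀ S, IsTope L S → g (vp φ S) ≤ g (vp φ T) := by
      apply KTC_imp φ hK hT g
      intro e he
      have h0 : g (vp φ (fl T e) - vp φ T) ≤ 0 := hg e (by simp [he])
      rw [map_sub] at h0
      linarith
    have h2 : x ∈ {y | g y ≤ g (vp φ T)} := by
      have hconv : Convex ℝ {y | g y ≤ g (vp φ T)} := convex_halfSpace_le g.isLinear _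
      have hsub : (Set.range fun i => (φ.toEquiv i).1) ⊆ {y | g y ≤ g (vp φ T)} := by
        rintro _ ⟨i, rfl⟩
        have := h1 i.1 i.2
        rw [hvp i.1 i.2] at this
        exact this
      have := convexHull_min hsub hconv
      rw [hhull] at hx
      exact this hx
    change g (x - vp φ T) ≤ 0
    rw [map_sub]
    have h3 : g x ≤ g (vp φ T) := h2
    linarith
  obtain ⟨l, hl, hle⟩ := farkas (Finset.univ.filter (fun e => Wall L T e))
    (fun e => (LinearMap.applyₗ (vp φ (fl T e) - vp φ T) : (EuclideanSpace ℝ (Fin r) →ₗ[ℝ] ℝ) →ₗ[ℝ] ℝ))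
    (LinearMap.applyₗ (x - vp φ T)) hfar
  refine ⟨fun e => if Wall L T e then l e else 0, ?_, ?_, ?_⟩
  · intro e
    simp only
    split_ifs
    · exact hl e
    · exact le_rfl
  · intro e he
    simp [he]
  · rw [← sub_eq_zero, ← Module.forall_dual_apply_eq_zero_iff ℝ]
    intro g
    have h := hle g
    simp only [LinearMap.applyₗ_apply_apply] at h
    rw [map_sub, h, map_sum, Finset.sum_filter, ← Finset.sum_sub_distrib]
    apply Finset.sum_eq_zero
    intro e _
    by_cases hW : Wall L T e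
    · simp [hW]
    · simp [hW]

end Pool.Agent.helper66.SL
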