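import Pool.Agent.helper66.SL.SpecA

set_option autoImplicit false

namespace Pool.Agent.helper66.SL

open Pool.Agent.helper52.FC

/-- XJW -/
theorem XJW_proof (hBIJ : BIJ) (hCRK : CRK) : XJW := by
  intro E _ L hL T hT J hJ
  obtain ⟨X, hX, hXT, hXJ⟩ := (hBIJ E L hL T hT).1 J hJ
  have hs : {e | Wall L T e ∧ X e = 0} = J := by
    ext e
    simp only [Set.mem_ofPred_eq]
    exact ⟨fun h => (hXJ e h.1).1 h.2, fun h => ⟨hJ e h, (hXJ e (hJ e h)).2 h⟩⟩
  refine ⟨X, ?_, hXT, hXJ⟩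
  have h := hCRK E L hL X hX T hT hXT
  rwa [hs] at h

end Pool.Agent.helper66.SL
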